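import Pool.Agent.Y685.SY.Stm2

/-!
# Project SY: Hoelder's inequality on balls, `L^m` versus `L^1`
-/

set_option autoImplicit false
set_option maxSynthPendingDepth 3

open scoped Topology ENNReal
open MeasureTheory Set Metric Filter

namespace Pool.Agent.Y568.SY

open Pool.Agent.Y685.SY

lemma hoelder {X : Type*} [MeasurableSpace X] {μ : Measure X} {g : X → ℝ≥0∞}
    (hg : AEMeasurable g μ) {m : ℕ} (hm : 0 < m) :
    ∫⁻ y, g y ∂μ ≤ (∫⁻ y, g y ^ m ∂μ) ^ (1 / (m : ℝ)) * (μ univ) ^ (1 - 1 / (m : ℝ)) := by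
  have hm1 : (1 : ℝ) ≤ m := by exact_mod_cast hm
  have hm0 : (m : ℝ) ≠ 0 := by positivity
  have h := ENNReal.lintegral_mul_norm_pow_le (μ := μ) (f := fun y => g y ^ m)
    (g := fun _ => 1) (hg.pow_const m) aemeasurable_const (p := 1 / (m : ℝ))
    (q := 1 - 1 / (m : ℝ)) (by positivity)
    (by rw [sub_nonneg, div_le_one (by positivity)]; exact hm1) (by ring)
  rw [lintegral_one] at h
  refine le_trans (le_of_eq ?_) h
  refine lintegral_congr fun y => ?_
  rw [ENNReal.one_rpow, mul_one, ← ENNReal.rpow_natCast, ← ENNReal.rpow_mul,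
    mul_one_div_cancel hm0, ENNReal.rpow_one]

variable (E : Type) [NormedAddCommGroup E] [InnerProductSpace ℝ E] [FiniteDimensional ℝ E]
  [MeasurableSpace E] [BorelSpace E]

theorem t_HOLD : S_HOLD E := by
  intro hm
  set m := Module.finrank ℝ E with hmdef
  have hm1 : (1 : ℝ) ≤ m := by exact_mod_cast hm
  have hm0 : (m : ℝ) ≠ 0 := by positivity
  set v : ℝ := (volume (ball (0 : E) 1)).toReal with hv
  have hvtop : volume (ball (0 : E) 1) ≠ ⊤ := measure_ball_lt_top.ne
  have hv0 : 0 < v := ENNReal.toReal_pos (measure_ball_pos volume _ one_pos).ne' hvtop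
  refine ⟨v ^ (1 - 1 / (m : ℝ)), Real.rpow_pos_of_pos hv0 _, ?_⟩
  intro V _ G x r ε hr hε hG hGm
  have h := hoelder (μ := volume.restrict (ball x r)) (g := fun y => ‖G y‖ₑ) hG.enorm hm
  have hq : (0 : ℝ) ≤ 1 - 1 / (m : ℝ) := by
    rw [sub_nonneg, div_le_one (by positivity)]; exact hm1
  have e1 : (ENNReal.ofReal (ε ^ m)) ^ (1 / (m : ℝ)) = ENNReal.ofReal ε := by
    rw [ENNReal.ofReal_rpow_of_nonneg (by positivity) (by positivity), ← Real.rpow_natCast,
      ← Real.rpow_mul hε, mul_one_div_cancel hm0, Real.rpow_one]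
  have e2 : (volume.restrict (ball x r)) univ = ENNReal.ofReal (r ^ m * v) := by
    rw [Measure.restrict_apply_univ, Measure.addHaar_ball_of_pos volume x hr, ← hmdef,
      ENNReal.ofReal_mul (by positivity), hv, ENNReal.ofReal_toReal hvtop]
  have e3 : (ENNReal.ofReal (r ^ m * v)) ^ (1 - 1 / (m : ℝ)) =
      ENNReal.ofReal (r ^ ((m : ℝ) - 1) * v ^ (1 - 1 / (m : ℝ))) := by
    rw [ENNReal.ofReal_rpow_of_nonneg (by positivity) hq, Real.mul_rpow (by positivity) hv0.le,
      ← Real.rpow_natCast, ← Real.rpow_mul hr.le]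
    congr 3
    field_simp
  rw [e2, e3] at h
  have h2 : (∫⁻ y in ball x r, ‖G y‖ₑ ^ m) ^ (1 / (m : ℝ)) ≤ ENNReal.ofReal ε := by
    rw [← e1]
    exact ENNReal.rpow_le_rpow hGm (by positivity)
  calc ENNReal.ofReal r * ∫⁻ y in ball x r, ‖G y‖ₑ
      ≤ ENNReal.ofReal r * (ENNReal.ofReal ε *
          ENNReal.ofReal (r ^ ((m : ℝ) - 1) * v ^ (1 - 1 / (m : ℝ)))) := by
        gcongr
        exact h.trans (by gcongr)
    _ = ENNReal.ofReal (v ^ (1 - 1 / (m : ℝ)) * ε * r ^ m) := by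
        rw [← ENNReal.ofReal_mul hε, ← ENNReal.ofReal_mul hr.le]
        congr 1
        have e5 : r ^ m = r * r ^ ((m : ℝ) - 1) := by
          rw [← Real.rpow_natCast, ← Real.rpow_one_add' hr.le (by ring_nf; positivity)]
          congr 1
          ring
        rw [e5]
        ring

theorem t_LMLI : S_LMLI E := by
  intro hm
  set m := Module.finrank ℝ E with hmdef
  have hm1 : (1 : ℝ) ≤ m := by exact_mod_cast hm
  have hm0 : (0 : ℝ) < 1 / (m : ℝ) := by positivity
  have hq : (0 : ℝ) ≤ 1 - 1 / (m : ℝ) := by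
    rw [sub_nonneg, div_le_one (by positivity)]; exact hm1
  refine ⟨?_, ?_⟩
  · intro V _ G U hU hG hK
    rw [locallyIntegrableOn_iff hU.isLocallyClosed]
    intro K hKU hKc
    have hGK : AEStronglyMeasurable G (volume.restrict K) := hG.mono_measure
      (Measure.restrict_mono hKU le_rfl)
    refine ⟨hGK, ?_⟩
    have h := hoelder (μ := volume.restrict K) (g := fun y => ‖G y‖ₑ) hGK.enorm hm
    refine lt_of_le_of_lt h ?_
    refine ENNReal.mul_lt_top (ENNReal.rpow_lt_top_of_nonneg hm0.le (hK K hKU hKc).ne) ?_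
    rw [Measure.restrict_apply_univ]
    exact ENNReal.rpow_lt_top_of_nonneg hq hKc.measure_lt_top.ne
  · intro ι _ V _ G K hK hG t₀ ht
    have h1 : Tendsto (fun t => (∫⁻ y in K, ‖G t y - G t₀ y‖ₑ ^ m) ^ (1 / (m : ℝ)) *
        (volume K) ^ (1 - 1 / (m : ℝ))) (𝓝 t₀) (𝓝 0) := by
      have h2 := (ENNReal.continuous_rpow_const (y := 1 / (m : ℝ))).tendsto 0 |>.comp ht
      rw [ENNReal.zero_rpow_of_pos hm0] at h2
      have h3 := ENNReal.Tendsto.mul_const h2 (b := (volume K) ^ (1 - 1 / (m : ℝ)))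
        (Or.inr (ENNReal.rpow_lt_top_of_nonneg hq hK.measure_lt_top.ne).ne)
      rw [zero_mul] at h3
      exact h3
    refine tendsto_of_tendsto_of_tendsto_of_le_of_le tendsto_const_nhds h1 (fun _ => bot_le)
      fun t => ?_
    have h := hoelder (μ := volume.restrict K) (g := fun y => ‖G t y - G t₀ y‖ₑ)
      ((hG t).sub (hG t₀)).enorm hm
    rw [Measure.restrict_apply_univ] at h
    exact h

end Pool.Agent.Y568.SY
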